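import Pool.Agent.Helper11.S3.Sheet
open MeasureTheory Metric Set Filter Topology Real
open scoped ENNReal NNReal

/-! # S3, row AX -/

namespace H11ST
namespace S3

theorem ax_pt (ρ : ℝ) (hρ : 0 < ρ) (v : E 3) (hv : ‖v‖ = ρ) :
    ∑ i : Fin 3, √(ρ ^ 2 - v i ^ 2) ≤ 3 * (8165 / 10000 * ρ) := by
  have h1 : v 0 ^ 2 + v 1 ^ 2 + v 2 ^ 2 = ρ ^ 2 := by
    rw [← hv, EuclideanSpace.norm_sq_eq, Fin.sum_univ_three]
    simp only [Real.norm_eq_abs, sq_abs]
  have ha : ∀ i : Fin 3, √(ρ ^ 2 - v i ^ 2) ^ 2 = ρ ^ 2 - v i ^ 2 := by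
    intro i
    apply Real.sq_sqrt
    fin_cases i <;> simp only [Fin.zero_eta, Fin.mk_one, Fin.reduceFinMk] <;>
      nlinarith [sq_nonneg (v 0), sq_nonneg (v 1), sq_nonneg (v 2)]
  rw [Fin.sum_univ_three]
  have h0 := Real.sqrt_nonneg (ρ ^ 2 - v 0 ^ 2)
  have h1' := Real.sqrt_nonneg (ρ ^ 2 - v 1 ^ 2)
  have h2' := Real.sqrt_nonneg (ρ ^ 2 - v 2 ^ 2)
  have a0 := ha 0
  have a1 := ha 1
  have a2 := ha 2
  set a := √(ρ ^ 2 - v 0 ^ 2)
  set b := √(ρ ^ 2 - v 1 ^ 2)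
  set c := √(ρ ^ 2 - v 2 ^ 2)
  have hs : (a + b + c) ^ 2 ≤ 6 * ρ ^ 2 := by
    nlinarith [sq_nonneg (a - b), sq_nonneg (a - c), sq_nonneg (b - c)]
  by_contra hc
  push Not at hc
  have hρ2 : 0 < ρ ^ 2 := by positivity
  have : (3 * (8165 / 10000 * ρ)) ^ 2 < (a + b + c) ^ 2 :=
    pow_lt_pow_left₀ hc (by positivity) (by norm_num)
  nlinarith

theorem ax : S3_AX := by
  intro hM x ρ hρ m hm P hP
  have horth : ∀ i j : Fin 3, i ≠ j →
      inner ℝ (EuclideanSpace.single i (1 : ℝ) : E 3) (EuclideanSpace.single j (1 : ℝ)) =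
        (0 : ℝ) := by
    intro i j hij
    simp [EuclideanSpace.inner_single_left, hij]
  have hnorm : ∀ i : Fin 3, ‖(EuclideanSpace.single i (1 : ℝ) : E 3)‖ = 1 := by
    intro i
    simp
  have hinner : ∀ (v : E 3) (i : Fin 3),
      inner ℝ v (EuclideanSpace.single i (1 : ℝ)) = v i := by
    intro v i
    simp [EuclideanSpace.inner_single_right]
  have hsum : ∑ i : Fin 3, ∑ p ∈ P, √(ρ ^ 2 - (p - x) i ^ 2) ≤
      ∑ _i : Fin 3, 8165 / 10000 * ρ * P.card := by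
    rw [Finset.sum_comm]
    calc ∑ p ∈ P, ∑ i : Fin 3, √(ρ ^ 2 - (p - x) i ^ 2)
        ≤ ∑ p ∈ P, 3 * (8165 / 10000 * ρ) := by
          apply Finset.sum_le_sum
          intro p hp
          exact ax_pt ρ hρ (p - x) (mem_sphere_iff_norm.1 (hP p hp))
      _ = ∑ _i : Fin 3, 8165 / 10000 * ρ * P.card := by
          rw [Finset.sum_const, Finset.sum_const]
          simp only [nsmul_eq_mul, Finset.card_univ, Fintype.card_fin]
          push_cast
          ring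
  obtain ⟨i, -, hi⟩ := Finset.exists_le_of_sum_le (Finset.univ_nonempty) hsum
  have h01 : i + 1 ≠ i + 2 := by fin_cases i <;> decide
  have h02 : i + 1 ≠ i := by fin_cases i <;> decide
  have h12 : i + 2 ≠ i := by fin_cases i <;> decide
  obtain ⟨D, c, hD, hPD, hc⟩ := hM x ρ hρ (EuclideanSpace.single (i + 1) (1 : ℝ))
    (EuclideanSpace.single (i + 2) (1 : ℝ)) (EuclideanSpace.single i (1 : ℝ)) (hnorm _) (hnorm _)
    (hnorm _) (horth _ _ h01) (horth _ _ h02) (horth _ _ h12) m hm P hP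
  refine ⟨D, c, hD, hPD, hc.trans ?_⟩
  have hm0 : (0 : ℝ) < m := by exact_mod_cast hm
  simp only [hinner]
  have h3 : π / (2 * m) * ∑ p ∈ P, √(ρ ^ 2 - (p - x) i ^ 2) ≤
      π / (2 * m) * (8165 / 10000 * ρ * P.card) :=
    mul_le_mul_of_nonneg_left hi (by positivity)
  calc π * ρ * m + π / (2 * m) * ∑ p ∈ P, √(ρ ^ 2 - (p - x) i ^ 2)
      ≤ π * ρ * m + π / (2 * m) * (8165 / 10000 * ρ * P.card) := by linarith
    _ = ρ * (π * (m + 8165 / 10000 * P.card / (2 * m))) := by ring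

end S3
end H11ST
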